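import Pool.Agent.Helper923.PNT

/-!
# Averages over the primes of nearly constant functions
-/

set_option autoImplicit false

namespace Pool.Agent.TH958.NG

open Filter Topology Finset

/-- the primes `p ≤ T` outside `R` -/
noncomputable def prs (R : Finset ℕ) (T : ℝ) : Finset ℕ :=
  {p ∈ Ioc 0 ⌊T⌋₊ | p.Prime ∧ p ∉ R}

lemma sum_inv_sqrt (n : ℕ) : ∑ k ∈ Ioc 0 n, (Real.sqrt k)⁻¹ ≤ 2 * Real.sqrt n := by
  induction n with
  | zero => simp
  | succ n ih =>
    rw [← insert_Ioc_right_eq_Ioc_add_one (by omega), sum_insert (by simp)]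
    have h1 : (0 : ℝ) < Real.sqrt ((n + 1 : ℕ) : ℝ) := Real.sqrt_pos.2 (by positivity)
    have h2 : Real.sqrt ((n + 1 : ℕ) : ℝ) ^ 2 = (n : ℝ) + 1 := by
      rw [Real.sq_sqrt (by positivity)]; push_cast; ring
    have h3 : Real.sqrt (n : ℝ) ^ 2 = n := Real.sq_sqrt (by positivity)
    have h4 : 0 ≤ Real.sqrt (n : ℝ) := Real.sqrt_nonneg _
    set x := Real.sqrt ((n + 1 : ℕ) : ℝ) with hx
    set y := Real.sqrt (n : ℝ) with hy
    have h5 : x⁻¹ ≤ 2 * x - 2 * y := by
      rw [inv_le_iff_one_le_mul₀ h1]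
      nlinarith [sq_nonneg (x - y)]
    linarith

theorem tauber (A : ℕ → ℝ) (R : Finset ℕ) (c C : ℝ)
    (h : ∀ p : ℕ, p.Prime → p ∉ R → |A p - c| ≤ C / Real.sqrt p) :
    Tendsto (fun T : ℝ => (∑ p ∈ prs R T, A p * Real.log p) / T) atTop (𝓝 c) := by
  have hth := Pool.Agent.Helper923.PNT.theta_div_tendsto
  -- the finitely many primes of `R`
  have hR : Tendsto (fun T : ℝ => (∑ p ∈ {p ∈ Ioc 0 ⌊T⌋₊ | p.Prime ∧ p ∈ R}, Real.log p) / T) atTop
      (𝓝 0) := by
    have h1 : Tendsto (fun T : ℝ => (∑ p ∈ R, |Real.log p|) / T) atTop (𝓝 0) :=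
      tendsto_const_nhds.div_atTop tendsto_id
    refine squeeze_zero_norm' ?_ h1
    filter_upwards [eventually_gt_atTop 0] with T hT
    rw [norm_div, Real.norm_eq_abs, Real.norm_eq_abs, abs_of_pos hT]
    apply div_le_div_of_nonneg_right _ hT.le
    refine (abs_sum_le_sum_abs _ _).trans ?_
    apply sum_le_sum_of_subset_of_nonneg
    · intro p hp
      rw [mem_filter] at hp
      exact hp.2.2
    · intro _ _ _
      exact abs_nonneg _
  -- the error term
  have hE : Tendsto (fun T : ℝ => (∑ p ∈ prs R T, (A p - c) * Real.log p) / T) atTop (𝓝 0) := by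
    have h2 : Tendsto (fun T : ℝ => 2 * |C| * (Real.log T / T ^ (1 / 2 : ℝ))) atTop (𝓝 0) := by
      have := (isLittleO_log_rpow_atTop (show (0 : ℝ) < 1 / 2 by norm_num)).tendsto_div_nhds_zero
      simpa using this.const_mul (2 * |C|)
    refine squeeze_zero_norm' ?_ h2
    filter_upwards [eventually_gt_atTop 1] with T hT
    have hT0 : 0 < T := by linarith
    have hlogT : 0 ≤ Real.log T := Real.log_nonneg hT.le
    rw [norm_div, Real.norm_eq_abs, Real.norm_eq_abs, abs_of_pos hT0, div_le_iff₀ hT0]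
    have h3 : ∑ p ∈ prs R T, |(A p - c) * Real.log p| ≤
        ∑ p ∈ prs R T, |C| * Real.log T * (Real.sqrt p)⁻¹ := by
      refine sum_le_sum fun p hp => ?_
      rw [prs, mem_filter, mem_Ioc] at hp
      have hp1 : (1 : ℝ) ≤ p := by exact_mod_cast hp.2.1.one_lt.le
      have hpT : (p : ℝ) ≤ T := (Nat.le_floor_iff hT0.le).1 hp.1.2
      have h4 := h p hp.2.1 hp.2.2
      have h5 : Real.log p ≤ Real.log T := Real.log_le_log (by linarith) hpT
      rw [abs_mul, abs_of_nonneg (Real.log_nonneg hp1)]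
      have h6 : |A p - c| ≤ |C| * (Real.sqrt p)⁻¹ := by
        rw [← div_eq_mul_inv]
        refine h4.trans ?_
        apply div_le_div_of_nonneg_right (le_abs_self _) (Real.sqrt_nonneg _)
      calc |A p - c| * Real.log p ≤ (|C| * (Real.sqrt p)⁻¹) * Real.log T :=
            mul_le_mul h6 h5 (Real.log_nonneg hp1) (by positivity)
        _ = _ := by ring
    have h7 : ∑ p ∈ prs R T, |C| * Real.log T * (Real.sqrt p)⁻¹ ≤
        |C| * Real.log T * (2 * Real.sqrt T) := by
      rw [← mul_sum]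
      apply mul_le_mul_of_nonneg_left _ (by positivity)
      calc ∑ p ∈ prs R T, (Real.sqrt p)⁻¹ ≤ ∑ p ∈ Ioc 0 ⌊T⌋₊, (Real.sqrt p)⁻¹ := by
            apply sum_le_sum_of_subset_of_nonneg (filter_subset _ _)
            intro _ _ _
            positivity
        _ ≤ 2 * Real.sqrt ⌊T⌋₊ := sum_inv_sqrt _
        _ ≤ 2 * Real.sqrt T := by
            apply mul_le_mul_of_nonneg_left _ (by norm_num)
            exact Real.sqrt_le_sqrt (Nat.floor_le hT0.le)
    refine (abs_sum_le_sum_abs _ _).trans (h3.trans (h7.trans (le_of_eq ?_)))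
    have h8 : T ^ (1 / 2 : ℝ) ≠ 0 := (Real.rpow_pos_of_pos hT0 _).ne'
    rw [Real.sqrt_eq_rpow]
    have h9 : T = T ^ (1 / 2 : ℝ) * T ^ (1 / 2 : ℝ) := by
      rw [← Real.rpow_add hT0]; norm_num
    field_simp
    rw [sq, ← h9]
  have hmain := ((hth.sub hR).const_mul c).add hE
  rw [sub_zero, mul_one, add_zero] at hmain
  refine hmain.congr fun T => ?_
  have h10 : Chebyshev.theta T = ∑ p ∈ prs R T, Real.log p +
      ∑ p ∈ {p ∈ Ioc 0 ⌊T⌋₊ | p.Prime ∧ p ∈ R}, Real.log p := by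
    rw [Chebyshev.theta, prs, ← sum_union]
    · apply sum_congr _ fun _ _ => rfl
      ext p
      simp only [mem_filter, mem_union]
      tauto
    · rw [disjoint_left]
      intro p hp hp'
      rw [mem_filter] at hp hp'
      exact hp.2.2 hp'.2.2
  have h11 : ∑ p ∈ prs R T, A p * Real.log p = c * ∑ p ∈ prs R T, Real.log p +
      ∑ p ∈ prs R T, (A p - c) * Real.log p := by
    rw [mul_sum, ← sum_add_distrib]
    refine sum_congr rfl fun p _ => ?_
    ring
  rw [h11, h10]
  ring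

end Pool.Agent.TH958.NG
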