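import Pool.Agent.TH958.An.Zeta

/-!
# Dirichlet series over the primes whose coefficients are nearly constant
-/

set_option autoImplicit false

namespace Pool.Agent.TH958.NG

open Complex Filter Topology
open Pool.Agent.TH958.An (Z1 Z1_one Z1_ne Z1_analytic zeta_mero Mz M_diff p_norm p_summable exp_prime)

/-- the prime zeta function -/
noncomputable def PZ (z : ℂ) : ℂ := ∑' p : Nat.Primes, ((p : ℕ) : ℂ) ^ (-z)

lemma term_deriv (p : Nat.Primes) (z : ℂ) :
    HasDerivAt (fun w : ℂ => ((p : ℕ) : ℂ) ^ (-w))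
      (-(Complex.log ((p : ℕ) : ℂ) * ((p : ℕ) : ℂ) ^ (-z))) z := by
  have hq : ((p : ℕ) : ℂ) ≠ 0 := by exact_mod_cast p.2.pos.ne'
  have h := (hasDerivAt_neg z).const_cpow (c := ((p : ℕ) : ℂ)) (Or.inl hq)
  convert h using 1
  ring

lemma PZ_hasSum (z : ℂ) (hz : 1 < z.re) :
    HasSum (fun p : Nat.Primes => -(Complex.log ((p : ℕ) : ℂ) * ((p : ℕ) : ℂ) ^ (-z)))
      (deriv PZ z) := by
  have hU : IsOpen {w : ℂ | (1 + z.re) / 2 < w.re} :=
    isOpen_lt continuous_const Complex.continuous_re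
  have h := Complex.hasSum_deriv_of_summable_norm (ι := Nat.Primes)
    (u := fun p => ((p : ℕ) : ℝ) ^ (-((1 + z.re) / 2)))
    (F := fun p w => ((p : ℕ) : ℂ) ^ (-w)) (z := z)
    (Nat.Primes.summable_rpow.2 (by linarith))
    (fun p w _ => (term_deriv p w).differentiableAt.differentiableWithinAt) hU
    (fun p w hw => by
      simp only [Set.mem_ofPred_eq] at hw
      rw [p_norm]
      apply Real.rpow_le_rpow_of_exponent_le (by exact_mod_cast p.2.one_lt.le)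
      linarith)
    (by simp only [Set.mem_ofPred_eq]; linarith)
  have h2 : (fun p : Nat.Primes => deriv (fun w : ℂ => ((p : ℕ) : ℂ) ^ (-w)) z) =
      fun p : Nat.Primes => -(Complex.log ((p : ℕ) : ℂ) * ((p : ℕ) : ℂ) ^ (-z)) := by
    funext p
    exact (term_deriv p z).deriv
  rw [h2] at h
  exact h

lemma PZ_diff (z : ℂ) (hz : 1 < z.re) : DifferentiableAt ℂ PZ z := by
  have hU : IsOpen {w : ℂ | (1 + z.re) / 2 < w.re} :=
    isOpen_lt continuous_const Complex.continuous_re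
  have h := Complex.differentiableOn_tsum_of_summable_norm (ι := Nat.Primes)
    (u := fun p => ((p : ℕ) : ℝ) ^ (-((1 + z.re) / 2)))
    (F := fun p w => ((p : ℕ) : ℂ) ^ (-w)) (U := {w : ℂ | (1 + z.re) / 2 < w.re})
    (Nat.Primes.summable_rpow.2 (by linarith))
    (fun p w _ => (term_deriv p w).differentiableAt.differentiableWithinAt) hU
    (fun p w hw => by
      simp only [Set.mem_ofPred_eq] at hw
      rw [p_norm]
      apply Real.rpow_le_rpow_of_exponent_le (by exact_mod_cast p.2.one_lt.le)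
      linarith)
  exact h.differentiableAt (hU.mem_nhds (by simp only [Set.mem_ofPred_eq]; linarith))

/-- the derivative of the prime zeta function -/
lemma PZ_deriv (z : ℂ) (hz : 1 < z.re) :
    deriv PZ z = deriv riemannZeta z / riemannZeta z - deriv Mz z := by
  have hU : IsOpen {w : ℂ | 1 < w.re} := isOpen_lt continuous_const Complex.continuous_re
  have hz1 : z ≠ 1 := by
    intro h
    rw [h] at hz
    simp at hz
  have hζ : riemannZeta z ≠ 0 := riemannZeta_ne_zero_of_one_lt_re hz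
  have h1 : HasDerivAt (fun w => Complex.exp (-PZ w)) (Complex.exp (-PZ z) * (-deriv PZ z)) z :=
    ((PZ_diff z hz).hasDerivAt.neg).cexp
  have hM : HasDerivAt Mz (deriv Mz z) z := by
    have hU' : IsOpen {w : ℂ | 5 / 6 < w.re} := isOpen_lt continuous_const Complex.continuous_re
    exact (M_diff.differentiableAt (hU'.mem_nhds (by
      simp only [Set.mem_ofPred_eq]; linarith))).hasDerivAt
  have h2 : HasDerivAt (fun w => Complex.exp (Mz w) * (riemannZeta w)⁻¹)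
      ((Complex.exp (Mz z) * deriv Mz z) * (riemannZeta z)⁻¹ +
        Complex.exp (Mz z) * (-deriv riemannZeta z / riemannZeta z ^ 2)) z :=
    hM.cexp.mul ((differentiableAt_riemannZeta hz1).hasDerivAt.inv hζ)
  have h3 : (fun w => Complex.exp (-PZ w)) =ᶠ[𝓝 z]
      fun w => Complex.exp (Mz w) * (riemannZeta w)⁻¹ := by
    filter_upwards [hU.mem_nhds hz] with w hw
    have := exp_prime w hw 1
    simp only [Nat.cast_one, neg_mul, one_mul, pow_one] at this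
    exact this
  have h4 := h1.unique (h2.congr_of_eventuallyEq h3)
  have h5 : Complex.exp (-PZ z) = Complex.exp (Mz z) * (riemannZeta z)⁻¹ := h3.self_of_nhds
  rw [h5] at h4
  have hne : Complex.exp (Mz z) ≠ 0 := Complex.exp_ne_zero _
  field_simp at h4 ⊢
  linear_combination -h4

lemma log_cast (p : Nat.Primes) : Complex.log ((p : ℕ) : ℂ) = ((Real.log ((p : ℕ) : ℝ) : ℝ) : ℂ) := by
  rw [Complex.natCast_log]

lemma log_le (p : Nat.Primes) : |Real.log ((p : ℕ) : ℝ)| ≤ 12 * ((p : ℕ) : ℝ) ^ (1 / 12 : ℝ) := by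
  have hp1 : (1 : ℝ) ≤ ((p : ℕ) : ℝ) := by exact_mod_cast p.2.one_lt.le
  rw [abs_of_nonneg (Real.log_nonneg hp1)]
  have := Real.log_le_rpow_div (x := ((p : ℕ) : ℝ)) (by linarith) (show (0 : ℝ) < 1 / 12 by norm_num)
  rw [div_div_eq_mul_div, div_one] at this
  linarith

section
variable (A : Nat.Primes → ℝ) (R : Finset Nat.Primes) (c C : ℝ)
  (h : ∀ p ∉ R, |A p - c| ≤ C * ((p : ℕ) : ℝ) ^ (-(1 / 2 : ℝ)))

/-- the error term -/
noncomputable def er (p : {p : Nat.Primes // p ∉ R}) (s : ℂ) : ℂ :=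
  (((A p.1 - c : ℝ) : ℂ) * (Real.log ((p.1 : ℕ) : ℝ) : ℝ)) * ((p.1 : ℕ) : ℂ) ^ (-s)

include h in
lemma er_norm (p : {p : Nat.Primes // p ∉ R}) (s : ℂ) (hs : 5 / 6 < s.re) :
    ‖er A R c p s‖ ≤ 12 * C * ((p.1 : ℕ) : ℝ) ^ (-(5 / 4 : ℝ)) := by
  have hp0 : (0 : ℝ) < ((p.1 : ℕ) : ℝ) := by exact_mod_cast p.1.2.pos
  have hp1 : (1 : ℝ) ≤ ((p.1 : ℕ) : ℝ) := by exact_mod_cast p.1.2.one_lt.le
  rw [er, norm_mul, norm_mul, p_norm, Complex.norm_real, Complex.norm_real, Real.norm_eq_abs,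
    Real.norm_eq_abs]
  have h1 := h p.1 p.2
  have hC : 0 ≤ C * ((p.1 : ℕ) : ℝ) ^ (-(1 / 2 : ℝ)) := (abs_nonneg _).trans h1
  have h2 := log_le p.1
  have h3 : ((p.1 : ℕ) : ℝ) ^ (-s.re) ≤ ((p.1 : ℕ) : ℝ) ^ (-(5 / 6 : ℝ)) :=
    Real.rpow_le_rpow_of_exponent_le hp1 (by linarith)
  calc _ ≤ ((C * ((p.1 : ℕ) : ℝ) ^ (-(1 / 2 : ℝ))) * (12 * ((p.1 : ℕ) : ℝ) ^ (1 / 12 : ℝ))) *
        ((p.1 : ℕ) : ℝ) ^ (-(5 / 6 : ℝ)) := by
        apply mul_le_mul _ h3 (by positivity) (by positivity)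
        exact mul_le_mul h1 h2 (abs_nonneg _) hC
    _ = 12 * C * (((p.1 : ℕ) : ℝ) ^ (-(1 / 2 : ℝ)) * ((p.1 : ℕ) : ℝ) ^ (1 / 12 : ℝ) *
        ((p.1 : ℕ) : ℝ) ^ (-(5 / 6 : ℝ))) := by ring
    _ = _ := by
        rw [← Real.rpow_add hp0, ← Real.rpow_add hp0]
        norm_num

lemma er_summable0 : Summable (fun p : {p : Nat.Primes // p ∉ R} =>
    12 * C * ((p.1 : ℕ) : ℝ) ^ (-(5 / 4 : ℝ))) :=
  ((Nat.Primes.summable_rpow.2 (show -(5 / 4 : ℝ) < -1 by norm_num)).subtype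
    (fun p => p ∉ R)).mul_left (12 * C)

include h in
lemma er_diff : DifferentiableOn ℂ (fun s => ∑' p : {p : Nat.Primes // p ∉ R}, er A R c p s)
    {s : ℂ | 5 / 6 < s.re} := by
  refine Complex.differentiableOn_tsum_of_summable_norm (er_summable0 R C) ?_
    (isOpen_lt continuous_const Complex.continuous_re) (fun p s hs => er_norm A R c C h p s hs)
  intro p s _
  exact ((term_deriv p.1 s).differentiableAt.const_mul _).differentiableWithinAt

include h in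
lemma er_summable (s : ℂ) (hs : 5 / 6 < s.re) :
    Summable (fun p : {p : Nat.Primes // p ∉ R} => er A R c p s) :=
  Summable.of_norm_bounded (er_summable0 R C) (fun p => er_norm A R c C h p s hs)

/-- the continuation -/
noncomputable def GG (s : ℂ) : ℂ :=
  (c : ℂ) * (deriv Mz s - deriv riemannZeta s / riemannZeta s) -
    (c : ℂ) * ∑ p ∈ R, ((Real.log ((p : ℕ) : ℝ) : ℝ) : ℂ) * ((p : ℕ) : ℂ) ^ (-s) +
    ∑' p : {p : Nat.Primes // p ∉ R}, er A R c p s

include h in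
theorem GG_hasSum (s : ℂ) (hs : 1 < s.re) :
    HasSum (fun p : {p : Nat.Primes // p ∉ R} =>
      (A p.1 : ℂ) * ((Real.log ((p.1 : ℕ) : ℝ) : ℝ) : ℂ) * ((p.1 : ℕ) : ℂ) ^ (-s)) (GG A R c s) := by
  have h1 := (PZ_hasSum s hs).neg
  rw [PZ_deriv s hs] at h1
  simp only [neg_neg, neg_sub, log_cast] at h1
  have h2 : HasSum (fun p : {p : Nat.Primes // p ∉ R} =>
      ((Real.log ((p.1 : ℕ) : ℝ) : ℝ) : ℂ) * ((p.1 : ℕ) : ℂ) ^ (-s))
      (deriv Mz s - deriv riemannZeta s / riemannZeta s -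
        ∑ p ∈ R, ((Real.log ((p : ℕ) : ℝ) : ℝ) : ℂ) * ((p : ℕ) : ℂ) ^ (-s)) := by
    have h3 := (Finset.hasSum_compl_iff R (f := fun p : Nat.Primes =>
      ((Real.log ((p : ℕ) : ℝ) : ℝ) : ℂ) * ((p : ℕ) : ℂ) ^ (-s))
      (a := deriv Mz s - deriv riemannZeta s / riemannZeta s -
        ∑ p ∈ R, ((Real.log ((p : ℕ) : ℝ) : ℝ) : ℂ) * ((p : ℕ) : ℂ) ^ (-s))).2 (by
        rw [sub_add_cancel]
        exact h1)
    exact h3
  have h4 := (h2.mul_left (c : ℂ)).add (er_summable A R c C h s (by linarith)).hasSum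
  rw [mul_sub] at h4
  have h5 : (fun p : {p : Nat.Primes // p ∉ R} =>
      (A p.1 : ℂ) * ((Real.log ((p.1 : ℕ) : ℝ) : ℝ) : ℂ) * ((p.1 : ℕ) : ℂ) ^ (-s)) =
      fun p : {p : Nat.Primes // p ∉ R} => (c : ℂ) * (((Real.log ((p.1 : ℕ) : ℝ) : ℝ) : ℂ) *
        ((p.1 : ℕ) : ℂ) ^ (-s)) + er A R c p s := by
    funext p
    rw [er]
    push_cast
    ring
  rw [h5]
  exact h4

include h in
theorem rest_analytic (s : ℂ) (hs : 5 / 6 < s.re) :
    AnalyticAt ℂ (fun s => (c : ℂ) * deriv Mz s -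
      (c : ℂ) * ∑ p ∈ R, ((Real.log ((p : ℕ) : ℝ) : ℝ) : ℂ) * ((p : ℕ) : ℂ) ^ (-s) +
      ∑' p : {p : Nat.Primes // p ∉ R}, er A R c p s) s := by
  have hU : IsOpen {w : ℂ | 5 / 6 < w.re} := isOpen_lt continuous_const Complex.continuous_re
  have hmem : {w : ℂ | 5 / 6 < w.re} ∈ 𝓝 s := hU.mem_nhds hs
  have a1 : AnalyticAt ℂ Mz s := M_diff.analyticAt hmem
  have a2 : AnalyticAt ℂ (fun s => ∑' p : {p : Nat.Primes // p ∉ R}, er A R c p s) s :=
    (er_diff A R c C h).analyticAt hmem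
  have a3 : AnalyticAt ℂ (fun s : ℂ => ∑ p ∈ R, ((Real.log ((p : ℕ) : ℝ) : ℝ) : ℂ) *
      ((p : ℕ) : ℂ) ^ (-s)) s := by
    have : DifferentiableOn ℂ (fun s : ℂ => ∑ p ∈ R, ((Real.log ((p : ℕ) : ℝ) : ℝ) : ℂ) *
      ((p : ℕ) : ℂ) ^ (-s)) Set.univ := by
      refine DifferentiableOn.fun_sum fun p _ => ?_
      intro s _
      exact ((term_deriv p s).differentiableAt.const_mul _).differentiableWithinAt
    exact this.analyticAt Filter.univ_mem
  exact ((analyticAt_const.mul a1.deriv).sub (analyticAt_const.mul a3)).add a2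

lemma GG_eq : GG A R c = fun s => ((c : ℂ) * deriv Mz s -
      (c : ℂ) * ∑ p ∈ R, ((Real.log ((p : ℕ) : ℝ) : ℝ) : ℂ) * ((p : ℕ) : ℂ) ^ (-s) +
      ∑' p : {p : Nat.Primes // p ∉ R}, er A R c p s) -
      (c : ℂ) * (deriv riemannZeta s / riemannZeta s) := by
  funext s
  rw [GG]
  ring

include h in
theorem GG_mero : MeromorphicOn (GG A R c) {s : ℂ | 5 / 6 < s.re} := by
  intro s hs
  rw [GG_eq]
  refine (rest_analytic A R c C h s hs).meromorphicAt.sub ?_
  exact (MeromorphicAt.const _ _).mul ((zeta_mero s).deriv.div (zeta_mero s))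

include h in
theorem GG_analytic (s : ℂ) (hs : 1 ≤ s.re) (h1 : s ≠ 1) : AnalyticAt ℂ (GG A R c) s := by
  rw [GG_eq]
  have hζ : riemannZeta s ≠ 0 := riemannZeta_ne_zero_of_one_le_re hs
  have hd : DifferentiableOn ℂ riemannZeta {s | s ≠ 1} := fun s hs =>
    (differentiableAt_riemannZeta hs).differentiableWithinAt
  have a1 : AnalyticAt ℂ riemannZeta s := hd.analyticAt (isOpen_ne.mem_nhds h1)
  exact (rest_analytic A R c C h s (by linarith)).sub (analyticAt_const.mul (a1.deriv.div a1 hζ))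

lemma zeta_log_residue : Tendsto (fun s : ℂ => (s - 1) * (deriv riemannZeta s / riemannZeta s))
    (𝓝[≠] 1) (𝓝 (-1)) := by
  have hZ : Tendsto (fun s : ℂ => (s - 1) * (deriv Z1 s / Z1 s) - 1) (𝓝 1) (𝓝 (-1)) := by
    have c1 : ContinuousAt (fun s : ℂ => (s - 1) * (deriv Z1 s / Z1 s) - 1) 1 := by
      refine ((continuousAt_id.sub continuousAt_const).mul
        (Z1_analytic.deriv.continuousAt.div Z1_analytic.continuousAt ?_)).sub continuousAt_const
      rw [Z1_one]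
      exact one_ne_zero
    have := c1.tendsto
    simp only [sub_self, zero_mul, zero_sub] at this
    exact this
  have hU : ∀ᶠ s in 𝓝[≠] (1 : ℂ), riemannZeta s ≠ 0 := by
    have h1 : ∀ᶠ s in 𝓝 (1 : ℂ), Z1 s ≠ 0 :=
      Z1_analytic.continuousAt.eventually_ne (by rw [Z1_one]; exact one_ne_zero)
    filter_upwards [h1.filter_mono nhdsWithin_le_nhds, self_mem_nhdsWithin] with s hs hs1
    intro h0
    apply hs
    rw [Z1_ne hs1, h0, mul_zero]
  refine (hZ.mono_left nhdsWithin_le_nhds).congr' ?_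
  filter_upwards [hU, self_mem_nhdsWithin] with s hs hs1
  have hs1' : s - 1 ≠ 0 := sub_ne_zero.2 hs1
  have hd : HasDerivAt (fun s : ℂ => (s - 1) * riemannZeta s)
      (1 * riemannZeta s + (s - 1) * deriv riemannZeta s) s :=
    ((hasDerivAt_id s).sub_const 1).mul (differentiableAt_riemannZeta hs1).hasDerivAt
  have hd' : HasDerivAt Z1 (1 * riemannZeta s + (s - 1) * deriv riemannZeta s) s := by
    refine hd.congr_of_eventuallyEq ?_
    filter_upwards [isOpen_ne.mem_nhds hs1] with u hu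
    exact Z1_ne hu
  rw [hd'.deriv, Z1_ne hs1]
  field_simp
  ring

include h in
theorem GG_residue : Tendsto (fun s : ℂ => (s - 1) * GG A R c s) (𝓝[≠] 1) (𝓝 (c : ℂ)) := by
  have h1 := (rest_analytic A R c C h 1 (by norm_num)).continuousAt
  have h2 : Tendsto (fun s : ℂ => (s - 1) * ((c : ℂ) * deriv Mz s -
      (c : ℂ) * ∑ p ∈ R, ((Real.log ((p : ℕ) : ℝ) : ℝ) : ℂ) * ((p : ℕ) : ℂ) ^ (-s) +
      ∑' p : {p : Nat.Primes // p ∉ R}, er A R c p s)) (𝓝[≠] 1) (𝓝 0) := by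
    have h0 : Tendsto (fun s : ℂ => s - 1) (𝓝 1) (𝓝 (1 - 1)) :=
      (continuous_id.sub continuous_const).tendsto 1
    have := h0.mul h1.tendsto
    rw [sub_self, zero_mul] at this
    exact this.mono_left nhdsWithin_le_nhds
  have h3 := h2.sub (zeta_log_residue.const_mul (c : ℂ))
  simp only [mul_neg, mul_one, sub_neg_eq_add, zero_add] at h3
  refine h3.congr fun s => ?_
  rw [GG_eq]
  ring

end

/-- **Dirichlet series over the primes whose coefficients are nearly constant.** -/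
theorem residue (A : Nat.Primes → ℝ) (R : Finset Nat.Primes) (c C : ℝ)
    (h : ∀ p ∉ R, |A p - c| ≤ C * ((p : ℕ) : ℝ) ^ (-(1 / 2 : ℝ))) :
    ∃ G : ℂ → ℂ,
      (∀ s : ℂ, 1 < s.re → HasSum (fun p : {p : Nat.Primes // p ∉ R} =>
        (A p.1 : ℂ) * ((Real.log ((p.1 : ℕ) : ℝ) : ℝ) : ℂ) * ((p.1 : ℕ) : ℂ) ^ (-s)) (G s)) ∧
      MeromorphicOn G {s : ℂ | 5 / 6 < s.re} ∧
      (∀ s : ℂ, 1 ≤ s.re → s ≠ 1 → AnalyticAt ℂ G s) ∧
      Tendsto (fun s : ℂ => (s - 1) * G s) (𝓝[≠] 1) (𝓝 (c : ℂ)) :=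
  ⟨GG A R c, GG_hasSum A R c C h, GG_mero A R c C h, GG_analytic A R c C h, GG_residue A R c C h⟩

end Pool.Agent.TH958.NG
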