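import Pool.Agent.TH958.An.Final

/-!
# The averages of the traces of Frobenius over the points of the base
-/

set_option autoImplicit false

namespace Pool.Agent.TH958.NG

open Finset MvPolynomial
open Pool.Agent.TH958.FP (AA PP RR yR yR_sq mkR mkR_surj wP aP xP BP RF RR_adjoin)
open Pool.Agent.TH958.An
open Pool.Agent.H126R3 (le_of_cast_zero)

/-- the average `p^{-e} ∑_y a_p(E_y)` over the points `y` of `Spec R[1/N]` with values in `𝔽_p` -/
noncomputable def avgA {R : Type} [CommRing R] (E : WeierstrassCurve R) (N : R) (e : ℕ)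
    (p : Nat.Primes) : ℝ :=
  letI : Fact (p : ℕ).Prime := ⟨p.2⟩
  (∑ᶠ φ : {φ : R →+* ZMod (p : ℕ) // φ N ≠ 0}, (trE (E.map φ.1) : ℝ)) / ((p : ℕ) : ℝ) ^ e

/-- the average `p^{-e} ∑_y b_p(E_y^m)`, with `b_p(E_y^m) = m p + (m choose 2) a_p(E_y)²`, over the
points `y` of `Spec R[1/N]` with values in `𝔽_p` -/
noncomputable def avgB {R : Type} [CommRing R] (E : WeierstrassCurve R) (N : R) (e m : ℕ)
    (p : Nat.Primes) : ℝ :=
  letI : Fact (p : ℕ).Prime := ⟨p.2⟩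
  (∑ᶠ φ : {φ : R →+* ZMod (p : ℕ) // φ N ≠ 0},
    ((m : ℝ) * (p : ℕ) + (m.choose 2 : ℝ) * (trE (E.map φ.1) : ℝ) ^ 2)) / ((p : ℕ) : ℝ) ^ e

lemma finsum_ne {R : Type} [CommRing R] {F : Type} [Field F] [Finite (R →+* F)] (N : R)
    (g : (R →+* F) → ℝ) :
    ∑ᶠ φ : {φ : R →+* F // φ N ≠ 0}, g φ.1 = ∑ᶠ φ : R →+* F,
      (open Classical in if φ N ≠ 0 then g φ else 0) := by
  classical
  let _ : Fintype (R →+* F) := Fintype.ofFinite _
  rw [finsum_eq_sum_of_fintype, finsum_eq_sum_of_fintype, ← Finset.sum_filter]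
  exact (Finset.sum_subtype (univ.filter fun φ : R →+* F => φ N ≠ 0) (by simp) g).symm

section
variable {R : Type} [CommRing R] [Algebra.FiniteType ℤ R]

/-- The nearly constant averages, from the sums over the points with values in finite fields. -/
theorem near_const (N : R) (e : ℕ) (g : ∀ (F : Type) [Field F], (R →+* F) → ℝ) (c : ℝ)
    (B : ℝ) (hB : 0 ≤ B) (k : ℕ)
    (hb : ∀ (F : Type) [Field F] [Fintype F] (φ : R →+* F), φ N ≠ 0 →
      |g F φ| ≤ B * Real.sqrt (Fintype.card F) * (Fintype.card F : ℝ) ^ k)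
    (C : ℝ) (hC0 : 0 ≤ C) (hC : ∀ (F : Type) [Field F] [Fintype F],
      (Nat.card (R →+* F) : ℝ) ≤ C * (Fintype.card F : ℝ) ^ e)
    (M : ℤ) (hM : M ≠ 0) (K : ℝ) (hK : 0 ≤ K)
    (hT : ∀ (F : Type) [Field F] [Fintype F], (M : F) ≠ 0 →
      |∑ᶠ φ : {φ : R →+* F // φ N ≠ 0}, g F φ.1 - c * (Fintype.card F : ℝ) ^ (e + k)| ≤
        K * ((Fintype.card F : ℝ) ^ (e + k) / Real.sqrt (Fintype.card F))) :
    ∃ C' : ℝ, 0 ≤ C' ∧ ∀ p : Nat.Primes,
      letI : Fact (p : ℕ).Prime := ⟨p.2⟩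
      |(∑ᶠ φ : {φ : R →+* ZMod (p : ℕ) // φ N ≠ 0}, g (ZMod (p : ℕ)) φ.1) / ((p : ℕ) : ℝ) ^ e -
        c * ((p : ℕ) : ℝ) ^ k| ≤ C' * (((p : ℕ) : ℝ) ^ k / Real.sqrt (p : ℕ)) := by
  classical
  refine ⟨K + (C * B + |c|) * |(M : ℝ)|, by positivity, fun p => ?_⟩
  let _ : Fact (p : ℕ).Prime := ⟨p.2⟩
  have hp0 : (0 : ℝ) < ((p : ℕ) : ℝ) := by exact_mod_cast p.2.pos
  have hp1 : (1 : ℝ) ≤ ((p : ℕ) : ℝ) := by exact_mod_cast p.2.pos
  have hcard : Fintype.card (ZMod (p : ℕ)) = (p : ℕ) := ZMod.card _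
  have hcardR : (Fintype.card (ZMod (p : ℕ)) : ℝ) = ((p : ℕ) : ℝ) := by rw [hcard]
  have hsq : 0 < Real.sqrt (p : ℕ) := Real.sqrt_pos.2 hp0
  have hsqq : Real.sqrt (p : ℕ) * Real.sqrt (p : ℕ) = ((p : ℕ) : ℝ) := Real.mul_self_sqrt hp0.le
  set S := ∑ᶠ φ : {φ : R →+* ZMod (p : ℕ) // φ N ≠ 0}, g (ZMod (p : ℕ)) φ.1 with hS
  change |S / ((p : ℕ) : ℝ) ^ e - c * ((p : ℕ) : ℝ) ^ k| ≤ _
  have hpe : (0 : ℝ) < ((p : ℕ) : ℝ) ^ e := by positivity
  have hpk : (0 : ℝ) < ((p : ℕ) : ℝ) ^ k := by positivity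
  have hred : |S - c * ((p : ℕ) : ℝ) ^ (e + k)| ≤
      (K + (C * B + |c|) * |(M : ℝ)|) * (((p : ℕ) : ℝ) ^ (e + k) / Real.sqrt (p : ℕ)) := by
    by_cases hMF : (M : ZMod (p : ℕ)) = 0
    · have h6 : ((p : ℕ) : ℝ) ≤ |(M : ℝ)| := le_of_cast_zero p 0 (by rw [hcard]; simp) _ hM hMF
      let _ : Fintype (R →+* ZMod (p : ℕ)) := Fintype.ofFinite _
      have h7 : |S| ≤ (C * B) * (Real.sqrt (p : ℕ) * ((p : ℕ) : ℝ) ^ (e + k)) := by
        rw [hS, finsum_eq_sum_of_fintype]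
        refine (Finset.abs_sum_le_sum_abs _ _).trans ?_
        have h8 : ∀ φ ∈ (univ : Finset {φ : R →+* ZMod (p : ℕ) // φ N ≠ 0}),
            |g (ZMod (p : ℕ)) φ.1| ≤ B * Real.sqrt (p : ℕ) * ((p : ℕ) : ℝ) ^ k := by
          intro φ _
          have := hb (ZMod (p : ℕ)) φ.1 φ.2
          rwa [hcardR] at this
        refine (Finset.sum_le_sum h8).trans ?_
        rw [Finset.sum_const, Finset.card_univ, nsmul_eq_mul]
        have h9 : (Fintype.card {φ : R →+* ZMod (p : ℕ) // φ N ≠ 0} : ℝ) ≤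
            C * ((p : ℕ) : ℝ) ^ e := by
          have h10 := hC (ZMod (p : ℕ))
          rw [hcardR, Nat.card_eq_fintype_card] at h10
          refine le_trans ?_ h10
          exact_mod_cast Fintype.card_subtype_le _
        calc _ ≤ (C * ((p : ℕ) : ℝ) ^ e) * (B * Real.sqrt (p : ℕ) * ((p : ℕ) : ℝ) ^ k) :=
              mul_le_mul_of_nonneg_right h9 (by positivity)
          _ = _ := by rw [pow_add]; ring
      have h8 : |c * ((p : ℕ) : ℝ) ^ (e + k)| ≤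
          |c| * (Real.sqrt (p : ℕ) * ((p : ℕ) : ℝ) ^ (e + k)) := by
        rw [abs_mul, abs_of_pos (show (0 : ℝ) < ((p : ℕ) : ℝ) ^ (e + k) by positivity)]
        apply mul_le_mul_of_nonneg_left _ (abs_nonneg _)
        have : 1 ≤ Real.sqrt (p : ℕ) := Real.one_le_sqrt.2 hp1
        nlinarith [show (0 : ℝ) < ((p : ℕ) : ℝ) ^ (e + k) by positivity]
      have h9 : Real.sqrt (p : ℕ) * ((p : ℕ) : ℝ) ^ (e + k) =
          ((p : ℕ) : ℝ) * (((p : ℕ) : ℝ) ^ (e + k) / Real.sqrt (p : ℕ)) := by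
        rw [mul_div_assoc', eq_div_iff hsq.ne', mul_right_comm, hsqq]
      refine (abs_sub _ _).trans ((add_le_add h7 h8).trans ?_)
      rw [h9, ← add_mul]
      have h10 : (0 : ℝ) ≤ ((p : ℕ) : ℝ) ^ (e + k) / Real.sqrt (p : ℕ) := by positivity
      rw [← mul_assoc]
      apply mul_le_mul_of_nonneg_right _ h10
      have h11 : (C * B + |c|) * ((p : ℕ) : ℝ) ≤ (C * B + |c|) * |(M : ℝ)| :=
        mul_le_mul_of_nonneg_left h6 (by positivity)
      linarith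
    · have h6 := hT (ZMod (p : ℕ)) hMF
      rw [hcardR] at h6
      refine h6.trans ?_
      apply mul_le_mul_of_nonneg_right _ (by positivity)
      have : 0 ≤ (C * B + |c|) * |(M : ℝ)| := by positivity
      linarith
  have h12 : S / ((p : ℕ) : ℝ) ^ e - c * ((p : ℕ) : ℝ) ^ k =
      (S - c * ((p : ℕ) : ℝ) ^ (e + k)) / ((p : ℕ) : ℝ) ^ e := by
    rw [pow_add]
    field_simp
  rw [h12, abs_div, abs_of_pos hpe, div_le_iff₀ hpe]
  refine hred.trans (le_of_eq ?_)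
  rw [pow_add]
  ring

end

section
variable {τ : Type} [Fintype τ] (a : MvPolynomial τ ℤ) {r : ℕ} {F : Type} [Field F]
  [Fintype F]

omit [Fintype τ] [Fintype F] in
/-- nonvanishing of the constants -/
lemma good_F (μ : τ →₀ ℕ) (hM : ((6 * coeff μ a : ℤ) : F) ≠ 0) :
    (2 : F) ≠ 0 ∧ (3 : F) ≠ 0 ∧ ringChar F ≠ 2 ∧ ((coeff μ a : ℤ) : F) ≠ 0 := by
  have h6 : (6 : F) ≠ 0 := by
    intro h
    apply hM
    push_cast
    rw [h, zero_mul]
  have h2 : (2 : F) ≠ 0 := by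
    intro h
    apply h6
    have : (6 : F) = 2 * 3 := by norm_num
    rw [this, h, zero_mul]
  have h3 : (3 : F) ≠ 0 := by
    intro h
    apply h6
    have : (6 : F) = 2 * 3 := by norm_num
    rw [this, h, mul_zero]
  have hF : ringChar F ≠ 2 := by
    intro h
    have := ringChar.Nat.cast_ringChar (R := F)
    rw [h] at this
    exact h2 (by exact_mod_cast this)
  refine ⟨h2, h3, hF, ?_⟩
  intro h
  apply hM
  push_cast
  rw [h, mul_zero]

/-- the sum of the traces -/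
theorem sumA (μ : τ →₀ ℕ) (hM : ((6 * coeff μ a : ℤ) : F) ≠ 0) (hr : 0 < r) :
    |∑ᶠ φ : {φ : RF r a →+* F // φ (NE a r) ≠ 0}, (trE ((EE a r).map φ.1) : ℝ) -
        (-r) * (Fintype.card F : ℝ) ^ (Fintype.card τ + r + 1)| ≤
      (8 * 4 ^ r + r * (3 + 2 * a.totalDegree) + 4 * 3 ^ r) *
        ((Fintype.card F : ℝ) ^ (Fintype.card τ + r + 1) / Real.sqrt (Fintype.card F)) := by
  classical
  obtain ⟨h2, h3, hF, hμF⟩ := good_F a μ hM
  have h := sum_good a hF h3 μ hμF r hr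
  rw [← trace_sum a h2 h3] at h
  have hq0 : (0 : ℝ) < Fintype.card F := by exact_mod_cast Fintype.card_pos
  have hsq : 0 < Real.sqrt (Fintype.card F) := Real.sqrt_pos.2 hq0
  have h1 : ∑ᶠ φ : {φ : RF r a →+* F // φ (NE a r) ≠ 0}, (trE ((EE a r).map φ.1) : ℝ) =
      ∑ᶠ φ : RF r a →+* F, tF (EE a r) (NE a r) φ := by
    rw [finsum_ne (NE a r) (fun φ => (trE ((EE a r).map φ) : ℝ))]
    rfl
  rw [h1, neg_mul, sub_neg_eq_add]
  refine h.trans (le_of_eq ?_)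
  congr 1
  rw [eq_div_iff hsq.ne', mul_right_comm, Real.mul_self_sqrt hq0.le, pow_succ']

end

/-- **The averages of the traces over the fibre power are nearly `-r`.** -/
theorem avgA_bound (τ : Type) [Fintype τ] (a : MvPolynomial τ ℤ) (ha : a ≠ 0) (r : ℕ)
    (hr : 0 < r) : ∃ C : ℝ, 0 ≤ C ∧ ∀ p : Nat.Primes,
      |avgA (EE a r) (NE a r) (Fintype.card τ + r + 1) p - (-r)| ≤ C / Real.sqrt (p : ℕ) := by
  classical
  obtain ⟨μ, hμ⟩ : ∃ μ, coeff μ a ≠ 0 := by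
    by_contra hcon
    push Not at hcon
    exact ha (MvPolynomial.ext _ _ (by simpa using hcon))
  obtain ⟨C, hC, h⟩ := near_const (NE a r) (Fintype.card τ + r + 1)
    (fun F _ φ => (trE ((EE a r).map φ) : ℝ)) (-r) 2 (by norm_num) 0
    (fun F _ _ φ hφ => by
      rw [pow_zero, mul_one]
      exact trE_bound a φ hφ) (2 ^ r) (by positivity)
    (fun F _ _ => by
      have := card_hom_le (r := r) a (F := F)
      rwa [Real.rpow_natCast] at this)
    (6 * coeff μ a) (mul_ne_zero (by norm_num) hμ)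
    (8 * 4 ^ r + r * (3 + 2 * a.totalDegree) + 4 * 3 ^ r) (by positivity)
    (fun F _ _ hM => by
      rw [add_zero]
      exact sumA a μ hM hr)
  refine ⟨C, hC, fun p => ?_⟩
  have := h p
  simp only [pow_zero, mul_one] at this
  rw [← mul_div_assoc, mul_one] at this
  exact this

end Pool.Agent.TH958.NG
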