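import Pool.Agent.TH958.NG.Avg

/-!
# The averages of the traces on the second cohomology of the powers of the curve
-/

set_option autoImplicit false

namespace Pool.Agent.TH958.NG

open Finset MvPolynomial
open Pool.Agent.TH958.FP (AA PP RR yR yR_sq mkR mkR_surj wP aP xP BP RF RR_adjoin)
open Pool.Agent.TH958.An
open Pool.Agent.H126R3 (le_of_cast_zero)

/-- the binomial expansion up to first order -/
theorem binom1 (q s : ℝ) (hq : 0 ≤ q) (hs : |s| ≤ 2 * q) (r : ℕ) :
    q * |(q + s) ^ r - q ^ r| ≤ 4 ^ r * |s| * q ^ r := by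
  induction r with
  | zero => simp
  | succ r ih =>
    set E := (q + s) ^ r - q ^ r with hE
    have h1 : (q + s) ^ (r + 1) - q ^ (r + 1) = (q + s) * E + s * q ^ r := by
      rw [hE]; ring
    have h3 : |q + s| ≤ 3 * q := by
      refine (abs_add_le _ _).trans ?_
      rw [abs_of_nonneg hq]
      linarith
    have h4 : (1 : ℝ) ≤ 4 ^ r := one_le_pow₀ (by norm_num)
    rw [h1]
    calc q * |(q + s) * E + s * q ^ r| ≤ q * (|q + s| * |E| + |s| * q ^ r) := by
          apply mul_le_mul_of_nonneg_left _ hq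
          refine (abs_add_le _ _).trans ?_
          rw [abs_mul, abs_mul, abs_of_nonneg (show 0 ≤ q ^ r by positivity)]
      _ = |q + s| * (q * |E|) + |s| * q ^ (r + 1) := by ring
      _ ≤ (3 * q) * (4 ^ r * |s| * q ^ r) + |s| * q ^ (r + 1) :=
          add_le_add (mul_le_mul h3 ih (by positivity) (by positivity)) le_rfl
      _ = (3 * 4 ^ r + 1) * (|s| * q ^ (r + 1)) := by ring
      _ ≤ 4 ^ (r + 1) * (|s| * q ^ (r + 1)) := by
          apply mul_le_mul_of_nonneg_right _ (by positivity)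
          rw [pow_succ]
          linarith
      _ = 4 ^ (r + 1) * |s| * q ^ (r + 1) := by ring

section
variable {τ : Type} [Fintype τ] [DecidableEq τ] (a : MvPolynomial τ ℤ) {F : Type} [Field F]
  [Fintype F] [DecidableEq F]

/-- the second moment over all parameters -/
theorem second_sum (hF : ringChar F ≠ 2) (h3 : (3 : F) ≠ 0) (μ : τ →₀ ℕ)
    (hμ : ((coeff μ a : ℤ) : F) ≠ 0) :
    |∑ u : τ → F, (∑ b : F, (SS (aeval (R := ℤ) u a) b : ℝ) ^ 2 - (Fintype.card F : ℝ) ^ 2)| ≤
      (3 + 2 * a.totalDegree) * (Fintype.card F : ℝ) ^ (Fintype.card τ + 1) := by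
  set q : ℝ := (Fintype.card F : ℝ) with hq
  have hq1 : 1 ≤ q := by rw [hq]; exact_mod_cast Fintype.card_pos
  have hq0 : 0 < q := by linarith
  set m := Fintype.card τ with hm
  have hcardU : ((univ : Finset (τ → F)).card : ℝ) = q ^ m := by
    rw [card_univ, Fintype.card_fun, hq, hm]; push_cast; rfl
  set Z := univ.filter fun u : τ → F => aeval (R := ℤ) u a = 0 with hZ
  have hZc := zeros_bound a (F := F) μ hμ
  rw [← hZ, ← hq, ← hm] at hZc
  calc _ ≤ ∑ u : τ → F, (3 * q + if aeval (R := ℤ) u a = 0 then 2 * q ^ 2 else 0) := by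
        refine (abs_sum_le_sum_abs _ _).trans (sum_le_sum fun u _ => ?_)
        by_cases h0 : aeval (R := ℤ) u a = 0
        · rw [if_pos h0]
          have := second_all hF (aeval (R := ℤ) u a)
          rw [← hq] at this
          have h5 : (0 : ℝ) ≤ 3 * q := by positivity
          exact this.trans (by linarith)
        · rw [if_neg h0, add_zero]
          exact second_ne hF h3 _ h0
    _ = 3 * q * q ^ m + (Z.card : ℝ) * (2 * q ^ 2) := by
        rw [sum_add_distrib, sum_const, nsmul_eq_mul, hcardU, ← sum_filter, sum_const,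
          nsmul_eq_mul]
        ring
    _ ≤ 3 * q * q ^ m + (a.totalDegree * q ^ m) * (2 * q) := by
        have : (Z.card : ℝ) * (2 * q ^ 2) = ((Z.card : ℝ) * q) * (2 * q) := by ring
        rw [this]
        have h5 := mul_le_mul_of_nonneg_right hZc (show (0 : ℝ) ≤ 2 * q by positivity)
        linarith
    _ = (3 + 2 * a.totalDegree) * q ^ (m + 1) := by ring

/-- the summand -/
noncomputable def bb (a : MvPolynomial τ ℤ) (r : ℕ) (k c : ℝ) (u : τ → F) (b : F) : ℝ :=
  ((Fintype.card F : ℝ) + SS (aeval (R := ℤ) u a) b) ^ r *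
    (k * (Fintype.card F : ℝ) + c * (SS (aeval (R := ℤ) u a) b : ℝ) ^ 2)

theorem bb_sum (hF : ringChar F ≠ 2) (h3 : (3 : F) ≠ 0) (μ : τ →₀ ℕ)
    (hμ : ((coeff μ a : ℤ) : F) ≠ 0) (r : ℕ) (k c : ℝ) (hk : 0 ≤ k) (hc : 0 ≤ c) :
    |∑ u : τ → F, ∑ b : F, (if 4 * aeval (R := ℤ) u a ^ 3 + 27 * b ^ 2 = 0 then 0
        else bb a r k c u b) - (k + c) * (Fintype.card F : ℝ) ^ (Fintype.card τ + r + 2)| ≤
      (2 * 4 ^ r * (k + 4 * c) + c * (3 + 2 * a.totalDegree) + 2 * 3 ^ r * (k + 4 * c)) *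
        (Real.sqrt (Fintype.card F) * (Fintype.card F : ℝ) ^ (Fintype.card τ + r + 1)) := by
  set q : ℝ := (Fintype.card F : ℝ) with hq
  have hq1 : 1 ≤ q := by rw [hq]; exact_mod_cast Fintype.card_pos
  have hq0 : 0 < q := by linarith
  have hsq1 : 1 ≤ Real.sqrt q := Real.one_le_sqrt.2 hq1
  have hss : Real.sqrt q ^ 2 = q := Real.sq_sqrt hq0.le
  have hsqq : Real.sqrt q ≤ q := by
    rw [Real.sqrt_le_left (by linarith)]
    nlinarith
  set m := Fintype.card τ with hm
  set s : (τ → F) → F → ℝ := fun u b => (SS (aeval (R := ℤ) u a) b : ℝ) with hs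
  have hsb : ∀ u b, |s u b| ≤ 2 * Real.sqrt q := fun u b => SS_bound hF _ _
  have hs2 : ∀ u b, s u b ^ 2 ≤ 4 * q := by
    intro u b
    rw [← sq_abs]
    calc |s u b| ^ 2 ≤ (2 * Real.sqrt q) ^ 2 := pow_le_pow_left₀ (abs_nonneg _) (hsb u b) 2
      _ = 4 * q := by rw [mul_pow, hss]; norm_num
  have hcardU : ((univ : Finset (τ → F)).card : ℝ) = q ^ m := by
    rw [card_univ, Fintype.card_fun, hq, hm]; push_cast; rfl
  have hw : ∀ u b, |k * q + c * s u b ^ 2| ≤ (k + 4 * c) * q := by
    intro u b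
    rw [abs_of_nonneg (by positivity)]
    have := mul_le_mul_of_nonneg_left (hs2 u b) hc
    linarith
  have hKc : 0 ≤ k + 4 * c := by positivity
  -- the bad parameters
  have h27 : (27 : F) ≠ 0 := by
    have : (27 : F) = 3 ^ 3 := by norm_num
    rw [this]
    exact pow_ne_zero 3 h3
  have hbad : ∀ u : τ → F,
      ((univ.filter fun b : F => 4 * aeval (R := ℤ) u a ^ 3 + 27 * b ^ 2 = 0).card : ℝ) ≤ 2 := by
    intro u
    have h4 : (univ.filter fun b : F => 4 * aeval (R := ℤ) u a ^ 3 + 27 * b ^ 2 = 0).card ≤ 2 := by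
      generalize 4 * aeval (R := ℤ) u a ^ 3 = c
      set P : Polynomial F := Polynomial.C 27 * Polynomial.X ^ 2 + Polynomial.C c with hP
      have h5 : (univ.filter fun b : F => c + 27 * b ^ 2 = 0) ⊆
          P.roots.toFinset := by
        intro x hx
        rw [mem_filter] at hx
        rw [Multiset.mem_toFinset, Polynomial.mem_roots']
        refine ⟨?_, ?_⟩
        · intro h0
          have := congrArg (fun p => Polynomial.coeff p 2) h0
          simp [hP] at this
          exact h27 this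
        · rw [Polynomial.IsRoot]
          simp only [hP, Polynomial.eval_add, Polynomial.eval_mul, Polynomial.eval_pow,
            Polynomial.eval_C, Polynomial.eval_X]
          linear_combination hx.2
      refine (card_le_card h5).trans ((Multiset.toFinset_card_le _).trans
        ((Polynomial.card_roots' _).trans ?_))
      rw [hP]
      compute_degree
    exact_mod_cast h4
  have htriv : ∀ (u : τ → F) (b : F), |bb a r k c u b| ≤ 3 ^ r * (k + 4 * c) * q ^ (r + 1) := by
    intro u b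
    rw [bb, abs_mul, abs_pow]
    have h5 : |q + s u b| ≤ 3 * q := by
      refine (abs_add_le _ _).trans ?_
      rw [abs_of_nonneg hq0.le]
      linarith [hsb u b]
    calc |q + s u b| ^ r * |k * q + c * s u b ^ 2| ≤ (3 * q) ^ r * ((k + 4 * c) * q) :=
          mul_le_mul (pow_le_pow_left₀ (abs_nonneg _) h5 r) (hw u b) (abs_nonneg _) (by positivity)
      _ = _ := by rw [mul_pow]; ring
  have h5 : |∑ u : τ → F, ∑ b : F, (if 4 * aeval (R := ℤ) u a ^ 3 + 27 * b ^ 2 = 0 then
      bb a r k c u b else 0)| ≤ 2 * 3 ^ r * (k + 4 * c) * (Real.sqrt q * q ^ (m + r + 1)) := by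
    calc _ ≤ ∑ u : τ → F, ∑ b : F, (if 4 * aeval (R := ℤ) u a ^ 3 + 27 * b ^ 2 = 0 then
          3 ^ r * (k + 4 * c) * q ^ (r + 1) else 0) := by
          refine (abs_sum_le_sum_abs _ _).trans (sum_le_sum fun u _ => ?_)
          refine (abs_sum_le_sum_abs _ _).trans (sum_le_sum fun b _ => ?_)
          split_ifs
          · exact htriv u b
          · rw [abs_zero]
      _ ≤ ∑ u : τ → F, 2 * (3 ^ r * (k + 4 * c) * q ^ (r + 1)) := by
          refine sum_le_sum fun u _ => ?_
          rw [← sum_filter, sum_const, nsmul_eq_mul]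
          exact mul_le_mul_of_nonneg_right (hbad u) (by positivity)
      _ = 2 * 3 ^ r * (k + 4 * c) * (1 * q ^ (m + r + 1)) := by
          rw [sum_const, nsmul_eq_mul, hcardU, add_assoc m r 1, pow_add q m (r + 1)]
          ring
      _ ≤ _ := by
          apply mul_le_mul_of_nonneg_left _ (by positivity)
          exact mul_le_mul_of_nonneg_right hsq1 (by positivity)
  -- the error of the first order
  have h6 : |∑ u : τ → F, ∑ b : F, (bb a r k c u b - q ^ r * (k * q + c * s u b ^ 2))| ≤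
      2 * 4 ^ r * (k + 4 * c) * (Real.sqrt q * q ^ (m + r + 1)) := by
    calc _ ≤ ∑ u : τ → F, ∑ b : F, 2 * 4 ^ r * (k + 4 * c) * (Real.sqrt q * q ^ r) := by
          refine (abs_sum_le_sum_abs _ _).trans (sum_le_sum fun u _ => ?_)
          refine (abs_sum_le_sum_abs _ _).trans (sum_le_sum fun b _ => ?_)
          have e1 : bb a r k c u b - q ^ r * (k * q + c * s u b ^ 2) =
              ((q + s u b) ^ r - q ^ r) * (k * q + c * s u b ^ 2) := by
            rw [bb]; ring
          have e2 := binom1 q (s u b) hq0.le (by linarith [hsb u b]) r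
          rw [e1, abs_mul]
          have e3 : q * (|(q + s u b) ^ r - q ^ r| * |k * q + c * s u b ^ 2|) ≤
              q * (2 * 4 ^ r * (k + 4 * c) * (Real.sqrt q * q ^ r)) := by
            calc q * (|(q + s u b) ^ r - q ^ r| * |k * q + c * s u b ^ 2|) =
                (q * |(q + s u b) ^ r - q ^ r|) * |k * q + c * s u b ^ 2| := by ring
              _ ≤ (4 ^ r * (2 * Real.sqrt q) * q ^ r) * ((k + 4 * c) * q) := by
                  refine mul_le_mul (e2.trans ?_) (hw u b) (abs_nonneg _) (by positivity)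
                  apply mul_le_mul_of_nonneg_right _ (by positivity)
                  exact mul_le_mul_of_nonneg_left (hsb u b) (by positivity)
              _ = _ := by ring
          exact le_of_mul_le_mul_left e3 hq0
      _ = _ := by
          rw [sum_const, sum_const, nsmul_eq_mul, nsmul_eq_mul, hcardU, card_univ, ← hq,
            show m + r + 1 = m + 1 + r by ring, pow_add, pow_add]
          ring
  have h7 := second_sum a hF h3 μ hμ
  rw [← hq, ← hm] at h7
  -- the main term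
  have h8 : ∑ u : τ → F, ∑ b : F, q ^ r * (k * q + c * s u b ^ 2) =
      (k + c) * q ^ (m + r + 2) + c * q ^ r * ∑ u : τ → F, (∑ b : F, s u b ^ 2 - q ^ 2) := by
    have e1 : ∀ u : τ → F, ∑ b : F, q ^ r * (k * q + c * s u b ^ 2) =
        q ^ r * (k * q ^ 2 + c * ∑ b : F, s u b ^ 2) := by
      intro u
      rw [← mul_sum, sum_add_distrib, sum_const, nsmul_eq_mul, card_univ, ← hq, ← mul_sum]
      ring
    rw [sum_congr rfl fun u _ => e1 u, ← mul_sum, sum_add_distrib, sum_const, nsmul_eq_mul, hcardU,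
      ← mul_sum, sum_sub_distrib, sum_const, nsmul_eq_mul, hcardU,
      show m + r + 2 = r + (m + 2) by ring, pow_add, pow_add]
    ring
  have h9 : |c * q ^ r * ∑ u : τ → F, (∑ b : F, s u b ^ 2 - q ^ 2)| ≤
      c * (3 + 2 * a.totalDegree) * (Real.sqrt q * q ^ (m + r + 1)) := by
    rw [abs_mul, abs_of_nonneg (show (0 : ℝ) ≤ c * q ^ r by positivity)]
    calc c * q ^ r * |∑ u : τ → F, (∑ b : F, s u b ^ 2 - q ^ 2)| ≤
        c * q ^ r * ((3 + 2 * a.totalDegree) * q ^ (m + 1)) :=
          mul_le_mul_of_nonneg_left h7 (by positivity)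
      _ = c * (3 + 2 * a.totalDegree) * (1 * q ^ (m + r + 1)) := by
          rw [show m + r + 1 = r + (m + 1) by ring, pow_add]
          ring
      _ ≤ _ := by
          apply mul_le_mul_of_nonneg_left _ (by positivity)
          exact mul_le_mul_of_nonneg_right hsq1 (by positivity)
  have h10 : ∑ u : τ → F, ∑ b : F, (if 4 * aeval (R := ℤ) u a ^ 3 + 27 * b ^ 2 = 0 then 0
        else bb a r k c u b) - (k + c) * q ^ (m + r + 2) =
      ∑ u : τ → F, ∑ b : F, (bb a r k c u b - q ^ r * (k * q + c * s u b ^ 2)) +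
      c * q ^ r * ∑ u : τ → F, (∑ b : F, s u b ^ 2 - q ^ 2) -
      ∑ u : τ → F, ∑ b : F, (if 4 * aeval (R := ℤ) u a ^ 3 + 27 * b ^ 2 = 0 then bb a r k c u b
        else 0) := by
    have e1 : ∑ u : τ → F, ∑ b : F, (if 4 * aeval (R := ℤ) u a ^ 3 + 27 * b ^ 2 = 0 then 0
        else bb a r k c u b) = ∑ u : τ → F, ∑ b : F, bb a r k c u b -
      ∑ u : τ → F, ∑ b : F, (if 4 * aeval (R := ℤ) u a ^ 3 + 27 * b ^ 2 = 0 then bb a r k c u b
        else 0) := by
      rw [← sum_sub_distrib]
      refine sum_congr rfl fun u _ => ?_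
      rw [← sum_sub_distrib]
      refine sum_congr rfl fun b _ => ?_
      split_ifs <;> ring
    have e2 : ∑ u : τ → F, ∑ b : F, (bb a r k c u b - q ^ r * (k * q + c * s u b ^ 2)) =
        ∑ u : τ → F, ∑ b : F, bb a r k c u b -
          ∑ u : τ → F, ∑ b : F, q ^ r * (k * q + c * s u b ^ 2) := by
      rw [← sum_sub_distrib]
      refine sum_congr rfl fun u _ => ?_
      rw [← sum_sub_distrib]
    rw [e1, e2, h8]
    ring
  rw [h10]
  refine (abs_sub _ _).trans ((add_le_add ((abs_add_le _ _).trans (add_le_add h6 h9)) h5).trans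
    (le_of_eq ?_))
  ring

/-- the sum over the points of the fibre power -/
theorem sumB {r : ℕ} (μ : τ →₀ ℕ) (hM : ((6 * coeff μ a : ℤ) : F) ≠ 0) (k c : ℝ)
    (hk : 0 ≤ k) (hc : 0 ≤ c) :
    |∑ᶠ φ : {φ : RF r a →+* F // φ (NE a r) ≠ 0},
        (k * (Nat.card F : ℝ) + c * (trE ((EE a r).map φ.1) : ℝ) ^ 2) -
        (k + c) * (Fintype.card F : ℝ) ^ (Fintype.card τ + r + 1 + 1)| ≤
      (2 * 4 ^ r * (k + 4 * c) + c * (3 + 2 * a.totalDegree) + 2 * 3 ^ r * (k + 4 * c)) *
        ((Fintype.card F : ℝ) ^ (Fintype.card τ + r + 1 + 1) / Real.sqrt (Fintype.card F)) := by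
  obtain ⟨h2, h3, hF, hμF⟩ := good_F a μ hM
  have hq0 : (0 : ℝ) < Fintype.card F := by exact_mod_cast Fintype.card_pos
  have hsq : 0 < Real.sqrt (Fintype.card F) := Real.sqrt_pos.2 hq0
  have h6 : (6 : F) ≠ 0 := by
    have : (6 : F) = 2 * 3 := by norm_num
    rw [this]
    exact mul_ne_zero h2 h3
  let _ : Fintype (RF r a →+* F) := Fintype.ofFinite _
  have h1 : ∑ᶠ φ : {φ : RF r a →+* F // φ (NE a r) ≠ 0},
        (k * (Nat.card F : ℝ) + c * (trE ((EE a r).map φ.1) : ℝ) ^ 2) =
      ∑ u : τ → F, ∑ b : F, (if 4 * aeval (R := ℤ) u a ^ 3 + 27 * b ^ 2 = 0 then 0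
        else bb a r k c u b) := by
    rw [finsum_ne (NE a r) (fun φ => k * (Nat.card F : ℝ) + c * (trE ((EE a r).map φ) : ℝ) ^ 2),
      finsum_eq_sum_of_fintype]
    have h := card_hom_sum (r := r) a (F := F) (G := fun p =>
      if 4 * aeval (R := ℤ) p.1 a ^ 3 + 27 * p.2 ^ 2 = 0 then 0
        else k * (Fintype.card F : ℝ) + c * (SS (aeval (R := ℤ) p.1 a) p.2 : ℝ) ^ 2)
    rw [Fintype.sum_prod_type] at h
    refine Eq.trans ?_ (h.trans ?_)
    · refine sum_congr rfl fun φ _ => ?_
      obtain ⟨e1, e2, e3, e4, e6⟩ := phi_E a φ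
      rw [phi_N]
      split_ifs with h h' h'
      · exact absurd (by rw [h', mul_zero]) h
      · rw [trE_eq hF _ _ _ e1 e2 e3 e4 e6 h', Nat.card_eq_fintype_card]
        push_cast
        ring
      · rfl
      · exact absurd (mul_ne_zero h6 h') h
    · refine sum_congr rfl fun u _ => sum_congr rfl fun b _ => ?_
      split_ifs with h0
      · rw [mul_zero]
      · have h5 := card_affine hF (aeval (R := ℤ) u a) b
        have h6 : ((univ.filter fun P : F × F =>
            P.2 ^ 2 = P.1 ^ 3 + aeval (R := ℤ) u a * P.1 + b).card : ℝ) =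
            (Fintype.card F : ℝ) + SS (aeval (R := ℤ) u a) b := by exact_mod_cast h5
        rw [h6, bb]
  have h := bb_sum a hF h3 μ hμF r k c hk hc
  rw [h1]
  refine h.trans (le_of_eq ?_)
  congr 1
  rw [eq_div_iff hsq.ne', mul_right_comm, Real.mul_self_sqrt hq0.le, ← pow_succ']

end

/-- **The averages of the traces on the second cohomology of `E^m`.** -/
theorem avgB_bound (τ : Type) [Fintype τ] (a : MvPolynomial τ ℤ) (ha : a ≠ 0) (r m : ℕ) :
    ∃ C : ℝ, 0 ≤ C ∧ ∀ p : Nat.Primes,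
      |avgB (EE a r) (NE a r) (Fintype.card τ + r + 1) m p -
        ((m : ℝ) + (m.choose 2 : ℝ)) * (p : ℕ)| ≤ C * Real.sqrt (p : ℕ) := by
  classical
  obtain ⟨μ, hμ⟩ : ∃ μ, coeff μ a ≠ 0 := by
    by_contra hcon
    push Not at hcon
    exact ha (MvPolynomial.ext _ _ (by simpa using hcon))
  set c : ℝ := (m.choose 2 : ℝ) with hc
  have hc0 : 0 ≤ c := Nat.cast_nonneg _
  have hm0 : (0 : ℝ) ≤ m := Nat.cast_nonneg _
  obtain ⟨C, hC, h⟩ := near_const (NE a r) (Fintype.card τ + r + 1)
    (fun F _ φ => (m : ℝ) * (Nat.card F : ℝ) + c * (trE ((EE a r).map φ) : ℝ) ^ 2) ((m : ℝ) + c)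
    ((m : ℝ) + 4 * c) (by positivity) 1
    (fun F _ _ φ hφ => by
      have h1 := trE_bound a φ hφ
      have hq1 : (1 : ℝ) ≤ Fintype.card F := by exact_mod_cast Fintype.card_pos
      have hq0 : (0 : ℝ) ≤ Fintype.card F := by linarith
      have hsq1 : 1 ≤ Real.sqrt (Fintype.card F) := Real.one_le_sqrt.2 hq1
      have h2 : (trE ((EE a r).map φ) : ℝ) ^ 2 ≤ 4 * (Fintype.card F : ℝ) := by
        rw [← sq_abs]
        calc |(trE ((EE a r).map φ) : ℝ)| ^ 2 ≤ (2 * Real.sqrt (Fintype.card F)) ^ 2 :=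
              pow_le_pow_left₀ (abs_nonneg _) h1 2
          _ = 4 * (Fintype.card F : ℝ) := by rw [mul_pow, Real.sq_sqrt hq0]; norm_num
      rw [pow_one, Nat.card_eq_fintype_card, abs_of_nonneg (by positivity)]
      have h3 := mul_le_mul_of_nonneg_left h2 hc0
      have h4 : ((m : ℝ) + 4 * c) * (Fintype.card F : ℝ) ≤
          ((m : ℝ) + 4 * c) * Real.sqrt (Fintype.card F) * (Fintype.card F : ℝ) := by
        have h5 : 0 ≤ ((m : ℝ) + 4 * c) * (Fintype.card F : ℝ) := by positivity
        nlinarith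
      linarith) (2 ^ r) (by positivity)
    (fun F _ _ => by
      have := card_hom_le (r := r) a (F := F)
      rwa [Real.rpow_natCast] at this)
    (6 * coeff μ a) (mul_ne_zero (by norm_num) hμ)
    (2 * 4 ^ r * ((m : ℝ) + 4 * c) + c * (3 + 2 * a.totalDegree) + 2 * 3 ^ r * ((m : ℝ) + 4 * c))
    (by positivity)
    (fun F _ _ hM => sumB a μ hM (m : ℝ) c hm0 hc0)
  refine ⟨C, hC, fun p => ?_⟩
  have h1 := h p
  simp only [pow_one, Nat.card_zmod] at h1
  have hp0 : (0 : ℝ) ≤ ((p : ℕ) : ℝ) := Nat.cast_nonneg _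
  rw [Real.div_sqrt] at h1
  exact h1

end Pool.Agent.TH958.NG
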